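import Pool.Agent.R226.CIG

/-!
MP_c785a0_an, Q1 (answer: disproved, with explicit `d` and `T`).

For `T = 2` and the sequence `d_1 = 2 + 10^{-6}`, `d_n = 10^{6(n-1)}` (`n ≥ 2`) both systems
`F(d, 2)` and `G(d, 2)` are conformal iterated function systems, `G(d, 2)` is regular, and
`h_F < h_G`; in fact `h_F ≤ 12/19 < 7/11 ≤ h_G`.

All definitions (`X`, `fMap`, `gMap`, `param`, `famF`, `famG`, `Admissible`, `wordMap`, `limitSet`,
`IsCIFS`, `supDeriv`, `Regular`, `dd`) are in `Pool/Agent/R226/CIA.lean`.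

Idea: near the parabolic value `d_1 = 2` the compositions `B^n A`, `A(y) = 1/(d_1 + y)`,
`B(y) = 1/(d_1 - y)`, contract only like `(2n+3)^{-2}`, so that sixty of them already give
dimension at least `7/11`, while `h_F` is close to `log 2 / log 3`.
-/

namespace Pool.Agent.Results.MP_c785a0_an.MoebiusDimensionLarger

open Pool.Agent.R226.CI

/-- The explicit sequence `dd` is admissible, `F(dd, 2)` is a CIFS, `G(dd, 2)` is a regular CIFS
and the limit set of `F(dd, 2)` has strictly smaller Hausdorff dimension than that of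
`G(dd, 2)`; the numbers `12/19 < 7/11` lie between the two dimensions. -/
theorem result : Admissible dd ∧ IsCIFS (famF dd 2) ∧ IsCIFS (famG dd 2) ∧ Regular (famG dd 2) ∧
    dimH (limitSet (famF dd 2)) < dimH (limitSet (famG dd 2)) ∧
    dimH (limitSet (famF dd 2)) ≤ ENNReal.ofReal (12 / 19) ∧
    ENNReal.ofReal (7 / 11) ≤ dimH (limitSet (famG dd 2)) :=
  ⟨dd_adm, cifs_F, cifs_G, regular_G, main_lt, dim_F_le, dim_G_ge⟩

end Pool.Agent.Results.MP_c785a0_an.MoebiusDimensionLarger
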